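import Pool.Agent.Helper70.MM.Goals2

/-!
Project MM, goal `DERIV`.
-/

open MeasureTheory Set Metric
open scoped ENNReal RealInnerProductSpace Topology
open Pool.Agent.Results.MP_91ee6f_gt

namespace Pool.Agent.Helper67.MM

/-- `f(ρ) = e^{-ℓρ}/ρ`. -/
private noncomputable def ff (l r : ℝ) : ℝ := Real.exp (-(l * r)) / r

/-- The ratio of derivatives. -/
private noncomputable def mm (l r : ℝ) : ℝ :=
  Real.exp (-(l * r)) * (1 + l * r) * (r ^ 2 + 1 / 4) ^ 2 / (2 * r ^ 3)

private theorem hasDeriv_ff (l r : ℝ) (hr : 0 < r) :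
    HasDerivAt (ff l) (-(Real.exp (-(l * r)) * (l * r + 1) / r ^ 2)) r := by
  have h1 : HasDerivAt (fun x : ℝ => -(l * x)) (-l) r := by
    have h : HasDerivAt (fun x : ℝ => -(l * x)) (-(l * 1)) r :=
      ((hasDerivAt_id r).const_mul l).neg
    rwa [mul_one] at h
  have h2 := h1.exp
  have h3 := h2.div (hasDerivAt_id r) hr.ne'
  have h4 : HasDerivAt (ff l) _ r := h3
  refine h4.congr_deriv ?_
  simp only [id]
  field_simp
  ring

private theorem hasDeriv_phi (r : ℝ) :
    HasDerivAt (fun x : ℝ => 1 / (x ^ 2 + 1 / 4)) (-(2 * r / (r ^ 2 + 1 / 4) ^ 2)) r := by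
  have h1 : HasDerivAt (fun x : ℝ => x ^ 2 + 1 / 4) (2 * r) r := by
    simpa using (hasDerivAt_pow 2 r).add_const (1 / 4 : ℝ)
  have h2 : (r ^ 2 + 1 / 4 : ℝ) ≠ 0 := by positivity
  have h3 := (hasDerivAt_const r (1 : ℝ)).div h1 h2
  refine h3.congr_deriv ?_
  ring

private theorem hasDeriv_mm (l r : ℝ) (hr : 0 < r) :
    HasDerivAt (mm l) (Real.exp (-(l * r)) * (r ^ 2 + 1 / 4) / (2 * r ^ 4) *
      ((1 + l * r) * (r ^ 2 - 3 / 4) - l ^ 2 * r ^ 2 * (r ^ 2 + 1 / 4))) r := by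
  have h1 : HasDerivAt (fun x : ℝ => -(l * x)) (-l) r := by
    have h : HasDerivAt (fun x : ℝ => -(l * x)) (-(l * 1)) r :=
      ((hasDerivAt_id r).const_mul l).neg
    rwa [mul_one] at h
  have h2 := h1.exp
  have h3 : HasDerivAt (fun x : ℝ => 1 + l * x) l r := by
    simpa using ((hasDerivAt_id r).const_mul l).const_add 1
  have h4 : HasDerivAt (fun x : ℝ => (x ^ 2 + 1 / 4) ^ 2) (2 * (r ^ 2 + 1 / 4) * (2 * r)) r := by
    have h : HasDerivAt (fun x : ℝ => x ^ 2 + 1 / 4) (2 * r) r := by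
      simpa using (hasDerivAt_pow 2 r).add_const (1 / 4 : ℝ)
    have h' : HasDerivAt (fun x : ℝ => (x ^ 2 + 1 / 4) ^ 2) _ r := h.pow 2
    refine h'.congr_deriv ?_
    norm_num
  have h5 : HasDerivAt (fun x : ℝ => 2 * x ^ 3) (2 * (3 * r ^ 2)) r := by
    simpa using (hasDerivAt_pow 3 r).const_mul (2 : ℝ)
  have h6 : (2 * r ^ 3 : ℝ) ≠ 0 := by positivity
  have h7 := ((h2.mul h3).mul h4).div h5 h6
  have h8 : HasDerivAt (mm l) _ r := h7
  refine h8.congr_deriv ?_
  simp only [Pi.mul_apply]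
  field_simp
  ring

private theorem mm_mono (l : ℝ) (hl : 0 < l) (hl2 : l ≤ 1 / 2) :
    MonotoneOn (mm l) (Icc 1 (Real.sqrt 2)) := by
  have h2 : Real.sqrt 2 ^ 2 = 2 := Real.sq_sqrt (by norm_num)
  apply monotoneOn_of_deriv_nonneg (convex_Icc _ _)
  · intro r hr
    exact (hasDeriv_mm l r (by linarith [hr.1])).continuousAt.continuousWithinAt
  · intro r hr
    rw [interior_Icc] at hr
    exact (hasDeriv_mm l r (by linarith [hr.1])).differentiableAt.differentiableWithinAt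
  · intro r hr
    rw [interior_Icc] at hr
    rw [(hasDeriv_mm l r (by linarith [hr.1])).deriv]
    have hr1 : 1 < r := hr.1
    have hr2 : r ^ 2 ≤ 2 := by
      have := hr.2
      nlinarith [Real.sqrt_nonneg 2]
    have hr3 : 1 ≤ r ^ 2 := by nlinarith
    refine mul_nonneg (by positivity) ?_
    have e1 : (1 + l) * (r ^ 2 - 3 / 4) ≤ (1 + l * r) * (r ^ 2 - 3 / 4) := by
      apply mul_le_mul_of_nonneg_right _ (by linarith)
      nlinarith
    have e2 : l ^ 2 * r ^ 2 * (r ^ 2 + 1 / 4) ≤ (l / 2) * (r ^ 2 * (r ^ 2 + 1 / 4)) := by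
      have : l ^ 2 ≤ l / 2 := by nlinarith
      have h3 : 0 ≤ r ^ 2 * (r ^ 2 + 1 / 4) := by positivity
      nlinarith
    have e3 : (l / 2) * (r ^ 2 * (r ^ 2 + 1 / 4)) ≤ (1 + l) * (r ^ 2 - 3 / 4) := by
      have h3 : r ^ 2 * (r ^ 2 + 1 / 4) ≤ 13 / 4 * r ^ 2 - 2 := by
        nlinarith
      nlinarith
    linarith

theorem dERIV : Pool.Agent.Helper70.MM.DERIV := by
  intro l u v hl hl2 hv hvu huv
  have h22 : Real.sqrt 2 ^ 2 = 2 := Real.sq_sqrt (by norm_num)
  set s2 := Real.sqrt 2 with hs2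
  set r1 := Real.sqrt (1 + u ^ 2) with hr1
  set r0 := Real.sqrt (1 + v ^ 2) with hr0
  have hr1s : r1 ^ 2 = 1 + u ^ 2 := Real.sq_sqrt (by positivity)
  have hr0s : r0 ^ 2 = 1 + v ^ 2 := Real.sq_sqrt (by positivity)
  have hu1 : u ≤ 1 := by linarith
  have hu0 : 0 ≤ u := by linarith
  have h01 : r0 ≤ r1 := Real.sqrt_le_sqrt (by nlinarith)
  have h12 : r1 ≤ s2 := Real.sqrt_le_sqrt (by nlinarith)
  have h10 : 1 ≤ r0 := by
    rw [hr0]; exact Real.le_sqrt_of_sq_le (by nlinarith)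
  set M := mm l r1 with hM
  have hM0 : 0 ≤ M := by
    have : 0 < r1 := by linarith
    rw [hM]; unfold mm
    positivity
  let H : ℝ → ℝ := fun r => ff l r - M * (1 / (r ^ 2 + 1 / 4))
  have hH : ∀ r, 0 < r → HasDerivAt H (2 * r / (r ^ 2 + 1 / 4) ^ 2 * (M - mm l r)) r := by
    intro r hr
    have := (hasDeriv_ff l r hr).sub ((hasDeriv_phi r).const_mul M)
    refine this.congr_deriv ?_
    unfold mm
    field_simp
    ring
  have hmono := mm_mono l hl hl2
  have hup : H r0 ≤ H r1 := by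
    have hmo : MonotoneOn H (Icc 1 r1) := by
      apply monotoneOn_of_deriv_nonneg (convex_Icc _ _)
      · intro r hr
        exact (hH r (by linarith [hr.1])).continuousAt.continuousWithinAt
      · intro r hr
        rw [interior_Icc] at hr
        exact (hH r (by linarith [hr.1])).differentiableAt.differentiableWithinAt
      · intro r hr
        rw [interior_Icc] at hr
        rw [(hH r (by linarith [hr.1])).deriv]
        have hr1' : 1 < r := hr.1
        refine mul_nonneg (by positivity) ?_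
        have := hmono ⟨hr.1.le, by linarith [hr.2]⟩ ⟨by linarith, h12⟩ hr.2.le
        linarith
    exact hmo ⟨h10, h01⟩ ⟨by linarith, le_refl _⟩ h01
  have hdn : H s2 ≤ H r1 := by
    have hmo : AntitoneOn H (Icc r1 s2) := by
      apply antitoneOn_of_deriv_nonpos (convex_Icc _ _)
      · intro r hr
        exact (hH r (by linarith [hr.1])).continuousAt.continuousWithinAt
      · intro r hr
        rw [interior_Icc] at hr
        exact (hH r (by linarith [hr.1])).differentiableAt.differentiableWithinAt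
      · intro r hr
        rw [interior_Icc] at hr
        rw [(hH r (by linarith [hr.1])).deriv]
        have hr1' : 0 < r := by linarith [hr.1]
        refine mul_nonpos_of_nonneg_of_nonpos (by positivity) ?_
        have := hmono ⟨by linarith, h12⟩ ⟨by linarith [hr.1], hr.2.le⟩ hr.1.le
        linarith
    exact hmo ⟨le_refl _, h12⟩ ⟨h12, le_refl _⟩ h12
  have hbr : 0 ≤ u * (1 / (r1 ^ 2 + 1 / 4)) - v * (1 / (r0 ^ 2 + 1 / 4)) -
      (u - v) * (1 / (s2 ^ 2 + 1 / 4)) := by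
    rw [hr1s, hr0s, h22]
    have hv' : v = 1 - u := by linarith
    have hp : u * v * (1 / 4 - u * v) * (u - v) / (9 / 4 * (u ^ 2 + 5 / 4) * (v ^ 2 + 5 / 4)) =
        u * (1 / (1 + u ^ 2 + 1 / 4)) - v * (1 / (1 + v ^ 2 + 1 / 4)) -
          (u - v) * (1 / (2 + 1 / 4)) := by
      subst hv'
      field_simp
      ring
    rw [← hp]
    have : 0 ≤ 1 / 4 - u * v := by nlinarith [sq_nonneg (u - v)]
    have h3 : 0 ≤ u - v := by linarith
    positivity
  have e1 : u * H r1 - v * H r0 - (u - v) * H s2 ≥ 0 := by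
    have h3 : 0 ≤ u - v := by linarith
    nlinarith [mul_le_mul_of_nonneg_left hup hv, mul_le_mul_of_nonneg_left hdn h3]
  have e2 : u * ff l r1 - v * ff l r0 - (u - v) * ff l s2 =
      (u * H r1 - v * H r0 - (u - v) * H s2) + M * (u * (1 / (r1 ^ 2 + 1 / 4)) -
        v * (1 / (r0 ^ 2 + 1 / 4)) - (u - v) * (1 / (s2 ^ 2 + 1 / 4))) := by
    simp only [H]
    ring
  have e3 := mul_nonneg hM0 hbr
  show (u - v) * ff l s2 ≤ u * ff l r1 - v * ff l r0
  linarith

end Pool.Agent.Helper67.MM
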